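import Pool.Agent.Helper74.MT.BVAux
import Pool.Agent.Helper18.BV.Bv

/-!
# MT-B: the error terms for primes in arithmetic progressions, weighted
-/

set_option autoImplicit false

open Finset Filter
open scoped ArithmeticFunction.vonMangoldt

namespace Pool.Agent.Helper74.MT

open Pool.Agent.Helper18.BV (wt IsWt BVav)
open Pool.Agent.Helper1.MT

theorem bvError_of (hbv : BVav) : BVError := by
  intro g hg k W hW A hA
  obtain ⟨G, hG0, hG⟩ := Pool.Agent.Helper44.BV.IsWt_bdd hg
  obtain ⟨C3, hC3, hM⟩ := Pool.Agent.Helper44.sum_primesUpTo_bounds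
  set a : ℝ := 2 * (k : ℝ) ^ 2 with ha
  have ha0 : 0 ≤ a := by positivity
  set B : ℝ := A + 3 + a with hB
  obtain ⟨C', X1, hC', hX1, hav⟩ := hbv g hg (A + B + 1) (by positivity)
  set C'' : ℝ := 9 * G * Real.exp (a * C3) with hC''
  have hC''0 : 0 < C'' := by positivity
  -- the threshold
  have ev : ∀ᶠ x : ℝ in atTop, (C'' + C') / 2 ≤ Real.log x := 
    Real.tendsto_log_atTop.eventually (eventually_ge_atTop _)
  have ev2 : ∀ᶠ x : ℝ in atTop, (W : ℝ) ≤ x ^ (1 / 3240 : ℝ) :=
    (tendsto_rpow_atTop (by norm_num)).eventually (eventually_ge_atTop _)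
  obtain ⟨X2, hX2⟩ := eventually_atTop.1 (ev.and ev2)
  refine ⟨max X1 X2, hX1.trans (le_max_left _ _), ?_⟩
  intro x hx c hc
  have hxX1 : X1 ≤ x := (le_max_left _ _).trans hx
  have hx3 : 3 ≤ x := hX1.trans hxX1
  have hx0 : 0 < x := by linarith
  have hx1 : 1 ≤ x := by linarith
  obtain ⟨hlogC, hWx⟩ := hX2 x ((le_max_right _ _).trans hx)
  have hlog1 : 1 ≤ Real.log x := by
    rw [Real.le_log_iff_exp_le hx0]
    exact (Real.exp_one_lt_d9.le.trans (by norm_num)).trans hx3
  have hlog0 : 0 < Real.log x := by linarith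
  set R : ℕ := lev x with hR
  have hRx : (R : ℝ) ≤ x ^ (1 / 81 : ℝ) := by
    rw [hR]; unfold lev
    exact Nat.floor_le (by positivity)
  have hRx1 : (R : ℝ) ≤ x := by
    refine hRx.trans ?_
    calc x ^ (1 / 81 : ℝ) ≤ x ^ (1 : ℝ) := Real.rpow_le_rpow_of_exponent_le hx1 (by norm_num)
      _ = x := Real.rpow_one x
  -- the error terms
  set E : ℕ → ℝ := fun d =>
    |∑ n ∈ (Icc 1 ⌊x⌋₊).filter (fun n => n ≡ c d [MOD d]), Λ n * wt g x n -
      (1 / (d.totient : ℝ)) * ∑ n ∈ Icc 1 ⌊x⌋₊, Λ n * wt g x n| with hE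
  have hE0 : ∀ d, 0 ≤ E d := fun d => abs_nonneg _
  set F := (PS R W).powerset.filter (fun U => ∏ p ∈ U, p ≤ R ^ 2) with hF
  have hgoal : ∑ U ∈ F, (k : ℝ) ^ U.card * E (W * ∏ p ∈ U, p) ≤ 1 / Real.log x ^ A := by
    -- moduli
    have hFm : ∀ U ∈ F, U ⊆ PS R W ∧ ∏ p ∈ U, p ≤ R ^ 2 := by
      intro U hU
      rw [hF, mem_filter, mem_powerset] at hU
      exact hU
    have hprime : ∀ U ∈ F, ∀ p ∈ U, p.Prime := by
      intro U hU p hp
      have := (hFm U hU).1 hp
      unfold PS at this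
      rw [mem_filter] at this
      exact this.2.1
    have hprod0 : ∀ U ∈ F, 0 < ∏ p ∈ U, p := fun U hU =>
      Finset.prod_pos fun p hp => (hprime U hU p hp).pos
    have hmod : ∀ U ∈ F, ((W * ∏ p ∈ U, p : ℕ) : ℝ) ≤ x ^ (1 / 40 : ℝ) := by
      intro U hU
      have h1 : ((∏ p ∈ U, p : ℕ) : ℝ) ≤ (x ^ (1 / 81 : ℝ)) ^ 2 := by
        calc ((∏ p ∈ U, p : ℕ) : ℝ) ≤ (R : ℝ) ^ 2 := by exact_mod_cast (hFm U hU).2
          _ ≤ _ := by gcongr
      rw [Nat.cast_mul]
      calc (W : ℝ) * ((∏ p ∈ U, p : ℕ) : ℝ) ≤ x ^ (1 / 3240 : ℝ) * (x ^ (1 / 81 : ℝ)) ^ 2 := by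
            gcongr
        _ = x ^ (1 / 40 : ℝ) := by
            rw [← Real.rpow_natCast, ← Real.rpow_mul hx0.le, ← Real.rpow_add hx0]
            norm_num
    -- sum of the errors
    have hsumE : ∑ U ∈ F, E (W * ∏ p ∈ U, p) ≤ C' / Real.log x ^ (A + B + 1) := by
      refine le_trans ?_ (hav x hxX1 c hc)
      have hinj : Set.InjOn (fun U : Finset ℕ => W * ∏ p ∈ U, p) (F : Set (Finset ℕ)) := by
        intro U hU V hV hUV
        have h1 : ∏ p ∈ U, p = ∏ p ∈ V, p := Nat.eq_of_mul_eq_mul_left hW hUV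
        have h2 : ∀ S ∈ F, (∏ p ∈ S, p).primeFactors = S := by
          intro S hS
          exact Nat.primeFactors_prod (hprime S hS)
        rw [← h2 U hU, ← h2 V hV, h1]
      rw [← Finset.sum_image (f := E) hinj]
      apply Finset.sum_le_sum_of_subset_of_nonneg
      · intro d hd
        rw [mem_image] at hd
        obtain ⟨U, hU, rfl⟩ := hd
        rw [mem_Icc]
        exact ⟨Nat.mul_pos hW (hprod0 U hU), Nat.le_floor (hmod U hU)⟩
      · intro d _ _
        exact hE0 d
    -- trivial bound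
    have htriv : ∀ U ∈ F, E (W * ∏ p ∈ U, p) ≤
        9 * G * Real.log x ^ 2 * (2 ^ U.card / ((∏ p ∈ U, p : ℕ) : ℝ)) := by
      intro U hU
      set d := W * ∏ p ∈ U, p with hd
      have hd0 : 0 < d := Nat.mul_pos hW (hprod0 U hU)
      have hdr : (0 : ℝ) < d := by exact_mod_cast hd0
      have hP0 : (0 : ℝ) < ((∏ p ∈ U, p : ℕ) : ℝ) := by exact_mod_cast hprod0 U hU
      have hdx : (d : ℝ) ^ 2 ≤ x := by
        calc (d : ℝ) ^ 2 ≤ (x ^ (1 / 40 : ℝ)) ^ 2 := by
              gcongr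
              exact hmod U hU
          _ = x ^ (1 / 20 : ℝ) := by
              rw [← Real.rpow_natCast, ← Real.rpow_mul hx0.le]; norm_num
          _ ≤ x ^ (1 : ℝ) := Real.rpow_le_rpow_of_exponent_le hx1 (by norm_num)
          _ = x := Real.rpow_one x
      have h1 := sum_class_le hg hG hx3 d (c d) hd0 hdx
      have h2 := sum_total_le hg hG hx3
      have h1n : 0 ≤ ∑ n ∈ (Icc 1 ⌊x⌋₊).filter (fun n => n ≡ c d [MOD d]), Λ n * wt g x n :=
        Finset.sum_nonneg fun n _ =>
          mul_nonneg ArithmeticFunction.vonMangoldt_nonneg (wt_nonneg hg x n)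
      have h2n : 0 ≤ ∑ n ∈ Icc 1 ⌊x⌋₊, Λ n * wt g x n :=
        Finset.sum_nonneg fun n _ =>
          mul_nonneg ArithmeticFunction.vonMangoldt_nonneg (wt_nonneg hg x n)
      have hphi : ((∏ p ∈ U, p : ℕ) : ℝ) ≤ (d.totient : ℝ) * 2 ^ U.card := by
        exact_mod_cast (le_totient R W hW U (hFm U hU).1).1
      have hphi0 : (0 : ℝ) < d.totient := by exact_mod_cast Nat.totient_pos.2 hd0
      have hinvphi : 1 / (d.totient : ℝ) ≤ 2 ^ U.card / ((∏ p ∈ U, p : ℕ) : ℝ) := by
        rw [div_le_div_iff₀ hphi0 hP0]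
        linarith
      have hinvd : 1 / (d : ℝ) ≤ 2 ^ U.card / ((∏ p ∈ U, p : ℕ) : ℝ) := by
        rw [div_le_div_iff₀ hdr hP0]
        have h3 : ((∏ p ∈ U, p : ℕ) : ℝ) ≤ d := by
          exact_mod_cast Nat.le_mul_of_pos_left _ hW
        have h4 : (1 : ℝ) ≤ 2 ^ U.card := one_le_pow₀ (by norm_num)
        nlinarith
      set r : ℝ := 2 ^ U.card / ((∏ p ∈ U, p : ℕ) : ℝ) with hr
      have hr0 : 0 ≤ r := by positivity
      have hA1 : E d ≤ (∑ n ∈ (Icc 1 ⌊x⌋₊).filter (fun n => n ≡ c d [MOD d]), Λ n * wt g x n) +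
          (1 / (d.totient : ℝ)) * ∑ n ∈ Icc 1 ⌊x⌋₊, Λ n * wt g x n := by
        rw [hE]
        have h5 : 0 ≤ (1 / (d.totient : ℝ)) * ∑ n ∈ Icc 1 ⌊x⌋₊, Λ n * wt g x n := by positivity
        rw [abs_le]
        constructor <;> linarith
      refine hA1.trans ?_
      have h6 : ∑ n ∈ (Icc 1 ⌊x⌋₊).filter (fun n => n ≡ c d [MOD d]), Λ n * wt g x n ≤
          2 * G * Real.log x ^ 2 * r := by
        refine h1.trans ?_
        calc G * Real.log x * (1 + Real.log x) / d
            = G * Real.log x * (1 + Real.log x) * (1 / d) := by ring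
          _ ≤ G * Real.log x * (Real.log x + Real.log x) * r := by gcongr
          _ = _ := by ring
      have h7 : (1 / (d.totient : ℝ)) * ∑ n ∈ Icc 1 ⌊x⌋₊, Λ n * wt g x n ≤
          7 * G * Real.log x ^ 2 * r := by
        calc (1 / (d.totient : ℝ)) * ∑ n ∈ Icc 1 ⌊x⌋₊, Λ n * wt g x n
            ≤ r * (G * (Real.log x + 6)) := mul_le_mul hinvphi h2 h2n hr0
          _ ≤ r * (G * (7 * Real.log x ^ 2)) := by
              gcongr
              nlinarith
          _ = _ := by ring
      linarith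
    -- weighted sum of the errors
    have hsum2 : ∑ U ∈ F, ((k : ℝ) ^ U.card) ^ 2 * E (W * ∏ p ∈ U, p) ≤
        C'' * Real.log x ^ (2 + a) := by
      calc ∑ U ∈ F, ((k : ℝ) ^ U.card) ^ 2 * E (W * ∏ p ∈ U, p)
          ≤ ∑ U ∈ F, 9 * G * Real.log x ^ 2 * (a ^ U.card / ((∏ p ∈ U, p : ℕ) : ℝ)) := by
            apply Finset.sum_le_sum
            intro U hU
            calc ((k : ℝ) ^ U.card) ^ 2 * E (W * ∏ p ∈ U, p) ≤ ((k : ℝ) ^ U.card) ^ 2 *
                  (9 * G * Real.log x ^ 2 * (2 ^ U.card / ((∏ p ∈ U, p : ℕ) : ℝ))) := by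
                  gcongr
                  exact htriv U hU
              _ = _ := by
                  rw [ha, mul_pow, ← pow_mul, ← pow_mul, mul_comm U.card 2]
                  ring
        _ = 9 * G * Real.log x ^ 2 * ∑ U ∈ F, a ^ U.card / ((∏ p ∈ U, p : ℕ) : ℝ) := by
            rw [Finset.mul_sum]
        _ ≤ 9 * G * Real.log x ^ 2 * (Real.exp (a * C3) * Real.log x ^ a) := by
            gcongr
            refine le_trans ?_ (sum_powerset_le hM R W x (by linarith) hRx1 a ha0)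
            apply Finset.sum_le_sum_of_subset_of_nonneg
            · rw [hF]; exact Finset.filter_subset _ _
            · intro U _ _; positivity
        _ = C'' * Real.log x ^ (2 + a) := by
            rw [Real.rpow_add hlog0, hC'']
            have h8 : Real.log x ^ (2 : ℝ) = Real.log x ^ 2 := by
              exact_mod_cast Real.rpow_natCast (Real.log x) 2
            rw [h8]
            ring
    -- arithmetic mean
    set lam : ℝ := Real.log x ^ (-B) with hlam
    have hlam0 : 0 < lam := Real.rpow_pos_of_pos hlog0 _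
    have hpt : ∀ U ∈ F, (k : ℝ) ^ U.card * E (W * ∏ p ∈ U, p) ≤
        lam / 2 * (((k : ℝ) ^ U.card) ^ 2 * E (W * ∏ p ∈ U, p)) +
          1 / (2 * lam) * E (W * ∏ p ∈ U, p) := by
      intro U _
      set b : ℝ := (k : ℝ) ^ U.card
      have h9 : b ≤ lam / 2 * b ^ 2 + 1 / (2 * lam) := by
        have h10 : 0 ≤ (lam * b - 1) ^ 2 / (2 * lam) := by positivity
        have h11 : (lam * b - 1) ^ 2 / (2 * lam) = lam / 2 * b ^ 2 + 1 / (2 * lam) - b := by
          field_simp
          ring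
        linarith
      calc b * E (W * ∏ p ∈ U, p) ≤ (lam / 2 * b ^ 2 + 1 / (2 * lam)) * E (W * ∏ p ∈ U, p) :=
            mul_le_mul_of_nonneg_right h9 (hE0 _)
        _ = _ := by ring
    calc ∑ U ∈ F, (k : ℝ) ^ U.card * E (W * ∏ p ∈ U, p)
        ≤ ∑ U ∈ F, (lam / 2 * (((k : ℝ) ^ U.card) ^ 2 * E (W * ∏ p ∈ U, p)) +
          1 / (2 * lam) * E (W * ∏ p ∈ U, p)) := Finset.sum_le_sum hpt
      _ = lam / 2 * ∑ U ∈ F, ((k : ℝ) ^ U.card) ^ 2 * E (W * ∏ p ∈ U, p) +
          1 / (2 * lam) * ∑ U ∈ F, E (W * ∏ p ∈ U, p) := by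
          rw [Finset.sum_add_distrib, ← Finset.mul_sum, ← Finset.mul_sum]
      _ ≤ lam / 2 * (C'' * Real.log x ^ (2 + a)) +
          1 / (2 * lam) * (C' / Real.log x ^ (A + B + 1)) := by
          gcongr
      _ = (C'' + C') / 2 * Real.log x ^ (-A - 1) := by
          have e1 : lam / 2 * (C'' * Real.log x ^ (2 + a)) =
              C'' / 2 * Real.log x ^ (-A - 1) := by
            have : Real.log x ^ (-A - 1) = lam * Real.log x ^ (2 + a) := by
              rw [hlam, ← Real.rpow_add hlog0, hB]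
              congr 1
              ring
            rw [this]
            ring
          have e2 : 1 / (2 * lam) * (C' / Real.log x ^ (A + B + 1)) =
              C' / 2 * Real.log x ^ (-A - 1) := by
            have h12 : 1 / lam = Real.log x ^ B := by
              rw [hlam, Real.rpow_neg hlog0.le, one_div, inv_inv]
            have h13 : 1 / Real.log x ^ (A + B + 1) = Real.log x ^ (-(A + B + 1)) := by
              rw [Real.rpow_neg hlog0.le, one_div]
            have h14 : Real.log x ^ (-A - 1) = Real.log x ^ B * Real.log x ^ (-(A + B + 1)) := by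
              rw [← Real.rpow_add hlog0]
              congr 1
              ring
            calc 1 / (2 * lam) * (C' / Real.log x ^ (A + B + 1))
                = C' / 2 * ((1 / lam) * (1 / Real.log x ^ (A + B + 1))) := by
                  field_simp
              _ = _ := by rw [h12, h13, h14]
          rw [e1, e2]
          ring
      _ ≤ Real.log x * Real.log x ^ (-A - 1) := by gcongr
      _ = 1 / Real.log x ^ A := by
          rw [one_div, ← Real.rpow_neg hlog0.le]
          have : Real.log x * Real.log x ^ (-A - 1) =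
              Real.log x ^ (1 : ℝ) * Real.log x ^ (-A - 1) := by rw [Real.rpow_one]
          rw [this, ← Real.rpow_add hlog0]
          congr 1
          ring
  exact hgoal

theorem bvError : BVError := bvError_of Pool.Agent.Helper18.BV.bv

end Pool.Agent.Helper74.MT
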