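import Pool.Agent.Helper74.MT.ClassSum

/-!
# MT-N1: the sieve sum over all integers
-/

set_option autoImplicit false

open Finset Filter

namespace Pool.Agent.Helper74.MT

open Pool.Agent.Helper1.MT

theorem PS_prime {R W : ℕ} (p : PS R W) : (p : ℕ).Prime := by
  have := p.2
  unfold PS at this
  rw [mem_filter] at this
  exact this.2.1

theorem PS_not_dvd {R W : ℕ} (p : PS R W) : ¬ (p : ℕ) ∣ W := by
  have := p.2
  unfold PS at this
  rw [mem_filter] at this
  exact this.2.2

theorem PS_le {R W : ℕ} (p : PS R W) : (p : ℕ) ≤ R := by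
  have := p.2
  unfold PS at this
  rw [mem_filter, mem_range] at this
  omega

/-- Chinese remainder theorem for the primes in `S` and `W`. -/
theorem crt_exists {R W : ℕ} (v : ℕ) (g : PS R W → ℕ) (S : Finset (PS R W)) :
    ∃ a : ℕ, ∀ n : ℕ, (n ≡ v [MOD W] ∧ ∀ p ∈ S, (p : ℕ) ∣ n + g p) ↔
      n ≡ a [MOD (W * ∏ p ∈ S, (p : ℕ))] := by
  classical
  induction S using Finset.induction_on with
  | empty => exact ⟨v, fun n => by simp⟩
  | insert p S hp ih =>
    obtain ⟨a, ha⟩ := ih
    have hpp := PS_prime p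
    have hcop : Nat.Coprime (W * ∏ q ∈ S, (q : ℕ)) p := by
      apply Nat.Coprime.symm
      apply Nat.Coprime.mul_right
      · exact (Nat.Prime.coprime_iff_not_dvd hpp).2 (PS_not_dvd p)
      · apply Nat.Coprime.prod_right
        intro q hq
        refine (Nat.coprime_primes hpp (PS_prime q)).2 ?_
        intro h
        have h2 : p = q := Subtype.ext h
        rw [h2] at hp
        exact hp hq
    have hlast : ∀ n : ℕ, (p : ℕ) ∣ n + g p ↔ n ≡ (g p * (p - 1)) [MOD p] := by
      intro n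
      have h1 : (p : ℕ) ∣ g p * (p - 1) + g p := by
        have h2 : g p * ((p : ℕ) - 1) + g p = g p * p := by
          obtain ⟨m, hm⟩ := Nat.exists_eq_succ_of_ne_zero hpp.ne_zero
          rw [hm, Nat.succ_eq_add_one, Nat.add_sub_cancel]
          ring
        rw [h2]
        exact Dvd.intro_left _ rfl
      constructor
      · intro h
        have h4 : n + g p ≡ g p * (p - 1) + g p [MOD p] :=
          ((Nat.modEq_zero_iff_dvd).2 h).trans ((Nat.modEq_zero_iff_dvd).2 h1).symm
        exact Nat.ModEq.add_right_cancel' _ h4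
      · intro h
        exact (Nat.modEq_zero_iff_dvd).1 ((h.add_right _).trans ((Nat.modEq_zero_iff_dvd).2 h1))
    obtain ⟨b, hb1, hb2⟩ := Nat.chineseRemainder hcop a (g p * (p - 1))
    refine ⟨b, fun n => ?_⟩
    rw [Finset.prod_insert hp]
    have e1 : W * ((p : ℕ) * ∏ q ∈ S, (q : ℕ)) = (W * ∏ q ∈ S, (q : ℕ)) * p := by ring
    rw [e1, ← Nat.modEq_and_modEq_iff_modEq_mul hcop]
    constructor
    · rintro ⟨h1, h2⟩
      have h3 := (ha n).1 ⟨h1, fun q hq => h2 q (Finset.mem_insert_of_mem hq)⟩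
      have h4 := (hlast n).1 (h2 p (Finset.mem_insert_self p S))
      exact ⟨h3.trans hb1.symm, h4.trans hb2.symm⟩
    · rintro ⟨h1, h2⟩
      obtain ⟨h3, h4⟩ := (ha n).2 (h1.trans hb1)
      refine ⟨h3, ?_⟩
      intro q hq
      rcases Finset.mem_insert.1 hq with rfl | hq
      · exact (hlast n).2 (h2.trans hb2)
      · exact h4 q hq

/-- The colouring attached to `n`. -/
noncomputable def sig {κ : Type} {R W : ℕ} (h : κ → ℕ) (n : ℕ) (p : PS R W) : Option κ := by
  classical exact if hx : ∃ i, (p : ℕ) ∣ n + h i then some hx.choose else none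

theorem sig_eq_some {κ : Type} {D0 R W v : ℕ} {h : κ → ℕ} (hS : Setup D0 h W v) (n : ℕ)
    (p : PS R W) (i : κ) : sig h n p = some i ↔ (p : ℕ) ∣ n + h i := by
  classical
  unfold sig
  constructor
  · intro hx
    split_ifs at hx with h1
    · have h2 := h1.choose_spec
      rw [Option.some.injEq] at hx
      rwa [hx] at h2
  · intro hx
    have h1 : ∃ i, (p : ℕ) ∣ n + h i := ⟨i, hx⟩
    rw [dif_pos h1, Option.some.injEq]
    by_contra hne
    have h2 := h1.choose_spec
    have h3 : ((p : ℕ) : ℤ) ∣ (h h1.choose : ℤ) - h i := by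
      have h4 : ((p : ℕ) : ℤ) ∣ ((n + h h1.choose : ℕ) : ℤ) := by exact_mod_cast h2
      have h5 : ((p : ℕ) : ℤ) ∣ ((n + h i : ℕ) : ℤ) := by exact_mod_cast hx
      have h6 := dvd_sub h4 h5
      push_cast at h6
      rwa [add_sub_add_left_eq_sub] at h6
    exact PS_not_dvd p (hS.diff _ _ hne p (PS_prime p) h3)

theorem le_sig_iff {κ : Type} [DecidableEq κ] {D0 R W v : ℕ} {h : κ → ℕ} (hS : Setup D0 h W v)
    (n : ℕ) (c : PS R W → Option κ) : Le c (sig h n) ↔ Dv h c n := by
  unfold Le Dv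
  constructor
  · intro hc p i hi
    rcases hc p with h1 | h1
    · rw [h1] at hi
      exact absurd hi (by simp)
    · rw [h1] at hi
      exact (sig_eq_some hS n p i).1 hi
  · intro hc p
    rcases hcp : c p with _ | i
    · exact Or.inl rfl
    · exact Or.inr ((sig_eq_some hS n p i).2 (hc p i hcp)).symm

section Abs

variable {ι κ : Type} [Fintype ι] [Fintype κ] [DecidableEq ι] [DecidableEq κ]

theorem mem_supp (c : ι → Option κ) (p : ι) : p ∈ supp c ↔ c p ≠ none := by
  unfold supp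
  rw [mem_filter]
  simp

theorem sum_inv_le (w : ℝ) (h0 : 0 ≤ w) (h1 : w ≤ 1) (b : Option κ) :
    ∑ a : Option κ, |inv w a b| ≤ if b = none then 1 else 2 := by
  rw [Fintype.sum_option]
  rcases b with _ | j
  · simp [inv]
  · simp only [inv]
    rw [abs_neg, abs_of_nonneg h0]
    have h2 : ∑ i : κ, |if i = j then (1 : ℝ) else 0| = 1 := by
      have h3 : ∀ i : κ, |if i = j then (1 : ℝ) else 0| = if i = j then 1 else 0 := by
        intro i
        split_ifs <;> simp
      simp only [h3]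
      simp
    rw [h2, if_neg (by simp)]
    linarith

/-- The sum of the absolute values of the sieve weights. -/
theorem sum_abs_lam_le (w : ι → ℝ) (h0 : ∀ p, 0 ≤ w p) (h1 : ∀ p, w p ≤ 1)
    (y : (ι → Option κ) → ℝ) :
    ∑ c : ι → Option κ, |lam w y c| ≤
      ∑ c : ι → Option κ, |y c| * ∏ p, (if c p = none then (1 : ℝ) else 2) := by
  have e1 : ∀ c : ι → Option κ, |lam w y c| ≤
      ∑ c' : ι → Option κ, |y c'| * ∏ p, |inv (w p) (c p) (c' p)| := by
    intro c
    unfold lam
    refine (Finset.abs_sum_le_sum_abs _ _).trans (le_of_eq ?_)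
    apply Finset.sum_congr rfl
    intro c' _
    rw [abs_mul, Finset.abs_prod, mul_comm]
  refine (Finset.sum_le_sum fun c _ => e1 c).trans ?_
  rw [Finset.sum_comm]
  apply Finset.sum_le_sum
  intro c' _
  rw [← Finset.mul_sum]
  apply mul_le_mul_of_nonneg_left _ (abs_nonneg _)
  have e2 : ∑ c : ι → Option κ, ∏ p, |inv (w p) (c p) (c' p)| =
      ∏ p, ∑ a : Option κ, |inv (w p) a (c' p)| := by
    rw [Finset.prod_univ_sum]
    simp only [Fintype.piFinset_univ]
  rw [e2]
  apply Finset.prod_le_prod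
  · intro p _
    exact Finset.sum_nonneg fun a _ => abs_nonneg _
  · intro p _
    exact sum_inv_le (w p) (h0 p) (h1 p) (c' p)

theorem lam_ne_zero {w : ι → ℝ} {y : (ι → Option κ) → ℝ} {c : ι → Option κ}
    (h : lam w y c ≠ 0) : ∃ c' : ι → Option κ, y c' ≠ 0 ∧ supp c ⊆ supp c' := by
  unfold lam at h
  obtain ⟨c', -, hc'⟩ := Finset.exists_ne_zero_of_sum_ne_zero h
  refine ⟨c', right_ne_zero_of_mul hc', ?_⟩
  intro p hp
  rw [mem_supp] at hp ⊢
  have h1 := Finset.prod_ne_zero_iff.1 (left_ne_zero_of_mul hc') p (Finset.mem_univ p)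
  intro hcon
  rcases hcp : c p with _ | i
  · exact hp hcp
  · rw [hcp, hcon] at h1
    simp [inv] at h1

end Abs

theorem prod_supp_le {R W : ℕ} (hR : 2 ≤ R) (S : Finset (PS R W)) (k : ℕ)
    (h : T (tp R W) S ≤ k) : ∏ p ∈ S, ((p : ℕ) : ℝ) ≤ (R : ℝ) ^ k := by
  have hlR : 0 < Real.log R := Real.log_pos (by exact_mod_cast hR)
  have hpos : ∀ p : PS R W, (0 : ℝ) < ((p : ℕ) : ℝ) := fun p => by
    exact_mod_cast (PS_prime p).pos
  unfold T tp at h
  rw [← Finset.sum_div, div_le_iff₀ hlR] at h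
  have h1 : Real.log (∏ p ∈ S, ((p : ℕ) : ℝ)) ≤ Real.log ((R : ℝ) ^ k) := by
    rw [Real.log_prod (fun p _ => (hpos p).ne'), Real.log_pow]
    exact h
  have hR0 : (0 : ℝ) < (R : ℝ) ^ k := by
    have : (0 : ℝ) < R := by exact_mod_cast (by omega : 0 < R)
    positivity
  exact (Real.log_le_log_iff (Finset.prod_pos fun p _ => hpos p) hR0).1 h1

theorem sum_inv_sq_PS (R W : ℕ) : ∑ p : PS R W, 1 / ((p : ℕ) : ℝ) ^ 2 ≤ 2 := by
  have h1 : ∑ p : PS R W, 1 / ((p : ℕ) : ℝ) ^ 2 = ∑ p ∈ PS R W, 1 / (p : ℝ) ^ 2 :=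
    Finset.sum_coe_sort (PS R W) (fun p : ℕ => 1 / (p : ℝ) ^ 2)
  rw [h1]
  have h2 := sum_Ioo_inv_sq_le (α := ℝ) 0 (R + 1)
  have h3 : ∑ p ∈ PS R W, 1 / (p : ℝ) ^ 2 ≤ ∑ i ∈ Ioo 0 (R + 1), ((i : ℝ) ^ 2)⁻¹ := by
    have h4 : ∀ p : ℕ, 1 / (p : ℝ) ^ 2 = ((p : ℝ) ^ 2)⁻¹ := fun p => one_div _
    simp only [h4]
    apply Finset.sum_le_sum_of_subset_of_nonneg
    · intro p hp
      unfold PS at hp
      rw [mem_filter, mem_range] at hp
      rw [mem_Ioo]
      exact ⟨hp.2.1.pos, hp.1⟩
    · intro p _ _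
      positivity
  refine h3.trans (h2.trans ?_)
  norm_num

/-- The sum of the absolute values of the sieve weights, explicit bound. -/
theorem sum_abs_lam_bound {κ : Type} [Fintype κ] [DecidableEq κ] {R W : ℕ} (hR : 2 ≤ R)
    (y : (PS R W → Option κ) → ℝ) (hy : ∀ c, |y c| ≤ R)
    (hT : ∀ c, y c ≠ 0 → T (tp R W) (supp c) ≤ 3) :
    ∑ c : PS R W → Option κ, |lam (wp R W) y c| ≤
      (R : ℝ) ^ 7 * Real.exp (4 * Fintype.card κ) := by
  have hpos : ∀ p : PS R W, (0 : ℝ) < ((p : ℕ) : ℝ) := fun p => by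
    exact_mod_cast (PS_prime p).pos
  have h1 : ∀ p : PS R W, (1 : ℝ) ≤ ((p : ℕ) : ℝ) := fun p => by
    exact_mod_cast (PS_prime p).pos
  have hR0 : (0 : ℝ) < R := by exact_mod_cast (by omega : 0 < R)
  refine (sum_abs_lam_le (wp R W) (fun p => by unfold wp; positivity)
    (fun p => by
      unfold wp
      rw [div_le_one (hpos p)]
      exact h1 p) y).trans ?_
  have h2 : ∀ c : PS R W → Option κ,
      |y c| * ∏ p, (if c p = none then (1 : ℝ) else 2) ≤
        (R : ℝ) ^ 7 * ∏ p : PS R W, (if c p = none then (1 : ℝ) else 2 / ((p : ℕ) : ℝ) ^ 2) := by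
    intro c
    have hnn : (0 : ℝ) ≤ ∏ p : PS R W,
        (if c p = none then (1 : ℝ) else 2 / ((p : ℕ) : ℝ) ^ 2) := by
      apply Finset.prod_nonneg
      intro p _
      split_ifs <;> positivity
    by_cases hyc : y c = 0
    · rw [hyc, abs_zero, zero_mul]
      positivity
    · have h3 := prod_supp_le hR (supp c) 3 (by exact_mod_cast hT c hyc)
      have h4 : ∏ p : PS R W, (if c p = none then (1 : ℝ) else 2) =
          (∏ p : PS R W, (if c p = none then (1 : ℝ) else 2 / ((p : ℕ) : ℝ) ^ 2)) *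
            (∏ p ∈ supp c, ((p : ℕ) : ℝ)) ^ 2 := by
        have h5 : ∏ p ∈ supp c, ((p : ℕ) : ℝ) =
            ∏ p : PS R W, (if c p = none then (1 : ℝ) else ((p : ℕ) : ℝ)) := by
          unfold supp
          rw [Finset.prod_filter]
          apply Finset.prod_congr rfl
          intro p _
          by_cases hcp : c p = none
          · rw [if_neg (by simpa using hcp), if_pos hcp]
          · rw [if_pos hcp, if_neg hcp]
        rw [h5, ← Finset.prod_pow, ← Finset.prod_mul_distrib]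
        apply Finset.prod_congr rfl
        intro p _
        split_ifs
        · simp
        · have := (hpos p).ne'
          field_simp
      rw [h4]
      have h6 : (∏ p ∈ supp c, ((p : ℕ) : ℝ)) ^ 2 ≤ (R : ℝ) ^ 6 := by
        calc (∏ p ∈ supp c, ((p : ℕ) : ℝ)) ^ 2 ≤ ((R : ℝ) ^ 3) ^ 2 := by
              apply pow_le_pow_left₀ _ h3
              exact Finset.prod_nonneg fun p _ => (hpos p).le
          _ = (R : ℝ) ^ 6 := by ring
      calc |y c| * ((∏ p : PS R W, (if c p = none then (1 : ℝ) else 2 / ((p : ℕ) : ℝ) ^ 2)) *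
            (∏ p ∈ supp c, ((p : ℕ) : ℝ)) ^ 2)
          ≤ R * ((∏ p : PS R W, (if c p = none then (1 : ℝ) else 2 / ((p : ℕ) : ℝ) ^ 2)) *
            (R : ℝ) ^ 6) := by
            apply mul_le_mul (hy c) _ (by positivity) hR0.le
            exact mul_le_mul_of_nonneg_left h6 hnn
        _ = _ := by ring
  refine (Finset.sum_le_sum fun c _ => h2 c).trans ?_
  rw [← Finset.mul_sum]
  apply mul_le_mul_of_nonneg_left _ (by positivity)
  have h7 : ∑ c : PS R W → Option κ,
      ∏ p : PS R W, (if c p = none then (1 : ℝ) else 2 / ((p : ℕ) : ℝ) ^ 2) =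
      ∏ p : PS R W, ∑ a : Option κ, (if a = none then (1 : ℝ) else 2 / ((p : ℕ) : ℝ) ^ 2) := by
    rw [Finset.prod_univ_sum]
    simp only [Fintype.piFinset_univ]
  rw [h7]
  have h8 : ∀ p : PS R W,
      ∑ a : Option κ, (if a = none then (1 : ℝ) else 2 / ((p : ℕ) : ℝ) ^ 2) ≤
        Real.exp (2 * Fintype.card κ * (1 / ((p : ℕ) : ℝ) ^ 2)) := by
    intro p
    rw [Fintype.sum_option]
    simp only [if_true, reduceCtorEq, if_false, Finset.sum_const, Finset.card_univ, nsmul_eq_mul]
    have h9 := Real.add_one_le_exp (2 * Fintype.card κ * (1 / ((p : ℕ) : ℝ) ^ 2))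
    refine le_trans (le_of_eq ?_) h9
    ring
  calc ∏ p : PS R W, ∑ a : Option κ, (if a = none then (1 : ℝ) else 2 / ((p : ℕ) : ℝ) ^ 2)
      ≤ ∏ p : PS R W, Real.exp (2 * Fintype.card κ * (1 / ((p : ℕ) : ℝ) ^ 2)) := by
        apply Finset.prod_le_prod
        · intro p _
          apply Finset.sum_nonneg
          intro a _
          split_ifs <;> positivity
        · intro p _
          exact h8 p
    _ = Real.exp (2 * Fintype.card κ * ∑ p : PS R W, (1 / ((p : ℕ) : ℝ) ^ 2)) := by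
        rw [← Real.exp_sum, ← Finset.mul_sum]
    _ ≤ Real.exp (4 * Fintype.card κ) := by
        apply Real.exp_le_exp.2
        have := sum_inv_sq_PS R W
        have hK : (0 : ℝ) ≤ Fintype.card κ := Nat.cast_nonneg _
        nlinarith

theorem join_eq_none {ι κ : Type} (c c' : ι → Option κ) (p : ι) :
    Pool.Agent.Helper1.MT.join c c' p = none ↔ c p = none ∧ c' p = none := by
  unfold Pool.Agent.Helper1.MT.join
  rcases c p with _ | i
  · simp
  · simp

theorem sumAll_core (hE : Expand) {κ : Type} [Fintype κ] [DecidableEq κ] {D0 : ℕ} {h : κ → ℕ}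
    {W v : ℕ} (hS : Setup D0 h W v) {x : ℝ} (hx9 : 9 ≤ x)
    (hWx : (W : ℝ) ≤ x ^ (23 / 54 : ℝ))
    (hKx : 4 * Real.exp (4 * Fintype.card κ) ^ 2 ≤ x ^ (53 / 162 : ℝ))
    {R : ℕ} (hR2 : 2 ≤ R) (hRx : (R : ℝ) ≤ x ^ (1 / 81 : ℝ))
    (y : (PS R W → Option κ) → ℝ) (hy : ∀ c, |y c| ≤ R)
    (hT : ∀ c, y c ≠ 0 → T (tp R W) (supp c) ≤ 3) :
    |∑ n ∈ NS x W v, (1 / (n : ℝ)) * sw h (lam (wp R W) y) n -
      (Real.log x / (2 * W)) * Qf (fun p => pr κ (wp R W p)) (lam (wp R W) y)| ≤ 1 := by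
  set K : ℕ := Fintype.card κ with hK
  have hW := hS.W_pos
  have hx0 : 0 < x := by linarith
  have hx1 : 1 ≤ x := by linarith
  have hR0 : (0 : ℝ) < R := by exact_mod_cast (by omega : 0 < R)
  set f := lam (wp R W) y with hf
  have hfsupp : ∀ c, f c ≠ 0 → ∏ p ∈ supp c, ((p : ℕ) : ℝ) ≤ (R : ℝ) ^ 3 := by
    intro c hc
    obtain ⟨c', hc', hsub⟩ := lam_ne_zero hc
    refine le_trans ?_ (prod_supp_le hR2 (supp c') 3 (by exact_mod_cast hT c' hc'))
    exact_mod_cast (Finset.prod_le_prod_of_subset_of_one_le' (f := fun p : PS R W => (p : ℕ)) hsub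
      (fun p _ _ => (PS_prime p).pos))
  set e : ℝ := 4 / x ^ (1 / 2 : ℝ) with he
  have he0 : 0 < e := by positivity
  have hmain := hE (PS R W) κ (fun p => pr κ (wp R W p)) f (NS x W v) (fun n => 1 / (n : ℝ))
    (fun n => sig h n) (Real.log x / (2 * W)) (fun _ => e) ?_ ?_
  · have hlhs : ∑ n ∈ NS x W v, (1 / (n : ℝ)) * sw h f n =
        ∑ n ∈ NS x W v, (1 / (n : ℝ)) *
          (∑ c ∈ univ.filter (fun c : PS R W → Option κ => Le c (sig h n)), f c) ^ 2 := by
      classical
      apply Finset.sum_congr rfl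
      intro n _
      congr 1
      unfold sw
      congr 1
      apply Finset.sum_congr _ (fun _ _ => rfl)
      ext c
      rw [mem_filter, mem_filter, le_sig_iff hS]
    rw [hlhs]
    refine hmain.trans ?_
    calc ∑ c : PS R W → Option κ, ∑ c' : PS R W → Option κ,
          (open Classical in if Compat c c' then |f c| * |f c'| * e else 0)
        ≤ ∑ c : PS R W → Option κ, ∑ c' : PS R W → Option κ, |f c| * |f c'| * e := by
          apply Finset.sum_le_sum
          intro c _
          apply Finset.sum_le_sum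
          intro c' _
          split_ifs
          · exact le_rfl
          · positivity
      _ = e * (∑ c : PS R W → Option κ, |f c|) ^ 2 := by
          rw [sq, Finset.sum_mul_sum, Finset.mul_sum]
          apply Finset.sum_congr rfl
          intro c _
          rw [Finset.mul_sum]
          apply Finset.sum_congr rfl
          intro c' _
          ring
      _ ≤ e * ((R : ℝ) ^ 7 * Real.exp (4 * K)) ^ 2 := by
          apply mul_le_mul_of_nonneg_left _ he0.le
          apply pow_le_pow_left₀ (Finset.sum_nonneg fun c _ => abs_nonneg _)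
          exact sum_abs_lam_bound hR2 y hy hT
      _ ≤ e * ((x ^ (1 / 81 : ℝ)) ^ 7 * Real.exp (4 * K)) ^ 2 := by gcongr
      _ = (4 * Real.exp (4 * K) ^ 2) * (x ^ (14 / 81 : ℝ) * (x ^ (1 / 2 : ℝ))⁻¹) := by
          have h1 : x ^ (14 / 81 : ℝ) = (x ^ (1 / 81 : ℝ)) ^ 14 := by
            rw [← Real.rpow_natCast, ← Real.rpow_mul hx0.le]
            norm_num
          rw [h1, he]
          ring
      _ ≤ x ^ (53 / 162 : ℝ) * (x ^ (14 / 81 : ℝ) * (x ^ (1 / 2 : ℝ))⁻¹) := by gcongr
      _ = 1 := by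
          rw [← Real.rpow_neg hx0.le, ← Real.rpow_add hx0, ← Real.rpow_add hx0]
          norm_num
  · intro p
    rw [Fintype.sum_option]
    simp only [pr, Finset.sum_const, Finset.card_univ, nsmul_eq_mul]
    ring
  · intro c c' hc hc' _
    set U := Pool.Agent.Helper1.MT.join c c' with hU
    have hUprod : ∏ p ∈ supp U, ((p : ℕ) : ℝ) ≤ (R : ℝ) ^ 6 := by
      have hsub : supp U ⊆ supp c ∪ supp c' := by
        intro p hp
        rw [mem_supp, hU, ne_eq, join_eq_none] at hp
        rw [mem_union, mem_supp, mem_supp]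
        tauto
      have h1 : ∏ p ∈ supp U, (p : ℕ) ≤ ∏ p ∈ supp c ∪ supp c', (p : ℕ) :=
        Finset.prod_le_prod_of_subset_of_one_le' hsub (fun p _ _ => (PS_prime p).pos)
      have h2 : ∏ p ∈ supp c ∪ supp c', (p : ℕ) ≤
          (∏ p ∈ supp c, (p : ℕ)) * ∏ p ∈ supp c', (p : ℕ) := by
        rw [← Finset.prod_union_inter]
        exact Nat.le_mul_of_pos_right _ (Finset.prod_pos fun p _ => (PS_prime p).pos)
      have h3 := hfsupp c hc
      have h4 := hfsupp c' hc'
      calc ∏ p ∈ supp U, ((p : ℕ) : ℝ)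
          ≤ (∏ p ∈ supp c, ((p : ℕ) : ℝ)) * ∏ p ∈ supp c', ((p : ℕ) : ℝ) := by
            exact_mod_cast h1.trans h2
        _ ≤ (R : ℝ) ^ 3 * (R : ℝ) ^ 3 := by
            apply mul_le_mul h3 h4 _ (by positivity)
            exact Finset.prod_nonneg fun p _ => Nat.cast_nonneg _
        _ = (R : ℝ) ^ 6 := by ring
    obtain ⟨a, ha⟩ := crt_exists (R := R) (W := W) v
      (fun p => match U p with | some i => h i | none => 0) (supp U)
    set q : ℕ := W * ∏ p ∈ supp U, (p : ℕ) with hq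
    have hq0 : 0 < q := Nat.mul_pos hW (Finset.prod_pos fun p _ => (PS_prime p).pos)
    have hqx : (q : ℝ) ≤ x ^ (1 / 2 : ℝ) := by
      rw [hq]
      push_cast
      calc (W : ℝ) * ∏ p ∈ supp U, ((p : ℕ) : ℝ) ≤ x ^ (23 / 54 : ℝ) * (x ^ (1 / 81 : ℝ)) ^ 6 := by
            apply mul_le_mul hWx _ _ (by positivity)
            · exact hUprod.trans (by gcongr)
            · exact Finset.prod_nonneg fun p _ => Nat.cast_nonneg _
        _ = x ^ (1 / 2 : ℝ) := by
            rw [← Real.rpow_natCast, ← Real.rpow_mul hx0.le, ← Real.rpow_add hx0]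
            norm_num
    have hset : (NS x W v).filter (fun n => Le U (sig h n)) =
        (Ioc ⌊x ^ (1 / 2 : ℝ)⌋₊ ⌊x⌋₊).filter (fun n => n ≡ a [MOD q]) := by
      unfold NS
      rw [filter_filter]
      ext n
      rw [mem_filter, mem_filter, ← ha n, le_sig_iff hS]
      apply and_congr_right
      intro _
      apply and_congr_right
      intro _
      unfold Dv
      constructor
      · intro h1 p hp
        rw [mem_supp] at hp
        rcases hUp : U p with _ | i
        · exact absurd hUp hp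
        · simp only
          exact h1 p i hUp
      · intro h1 p i hUp
        have h2 := h1 p ((mem_supp U p).2 (by rw [hUp]; simp))
        rw [hUp] at h2
        exact h2
    have hprod : Real.log x / (2 * W) * ∏ p ∈ supp U, pr κ (wp R W p) (U p) =
        Real.log x / (2 * q) := by
      have h1 : ∏ p ∈ supp U, pr κ (wp R W p) (U p) = ∏ p ∈ supp U, (((p : ℕ) : ℝ))⁻¹ := by
        apply Finset.prod_congr rfl
        intro p hp
        rw [mem_supp] at hp
        rcases hUp : U p with _ | i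
        · exact absurd hUp hp
        · simp only [pr, wp, one_div]
      rw [h1, Finset.prod_inv_distrib, hq]
      push_cast
      have hW' : (W : ℝ) ≠ 0 := by exact_mod_cast hW.ne'
      have hP : (∏ p ∈ supp U, ((p : ℕ) : ℝ)) ≠ 0 :=
        Finset.prod_ne_zero_iff.2 fun p _ => by exact_mod_cast (PS_prime p).ne_zero
      field_simp
    rw [hset, hprod]
    exact class_sum_real hx9 q a hq0 hqx

theorem sumAll (hE : Expand) : SumAll := by
  intro κ _ _ D0 h W v _hD0 hS
  have ev1 : ∀ᶠ x : ℝ in atTop, (W : ℝ) ≤ x ^ (23 / 54 : ℝ) :=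
    (tendsto_rpow_atTop (by norm_num)).eventually (eventually_ge_atTop _)
  have ev2 : ∀ᶠ x : ℝ in atTop, 4 * Real.exp (4 * Fintype.card κ) ^ 2 ≤ x ^ (53 / 162 : ℝ) :=
    (tendsto_rpow_atTop (by norm_num)).eventually (eventually_ge_atTop _)
  have ev3 : ∀ᶠ x : ℝ in atTop, (2 : ℝ) ≤ x ^ (1 / 81 : ℝ) :=
    (tendsto_rpow_atTop (by norm_num)).eventually (eventually_ge_atTop _)
  obtain ⟨X1, hX1⟩ := eventually_atTop.1 (ev1.and (ev2.and ev3))
  refine ⟨max 9 X1, le_trans (by norm_num) (le_max_left _ _), ?_⟩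
  intro x hx y hy hT
  have hx9 : 9 ≤ x := (le_max_left _ _).trans hx
  obtain ⟨hWx, hKx, h2x⟩ := hX1 x ((le_max_right _ _).trans hx)
  refine sumAll_core hE hS hx9 hWx hKx ?_ ?_ y hy hT
  · unfold lev
    exact Nat.le_floor (by exact_mod_cast h2x)
  · unfold lev
    exact Nat.floor_le (Real.rpow_nonneg (by linarith) _)

end Pool.Agent.Helper74.MT
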