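import Pool.Agent.Helper1.MT.Defs

/-!
# MT-N1, part 1: harmonic sums over arithmetic progressions
-/

set_option autoImplicit false

open Finset

namespace Pool.Agent.Helper74.MT

theorem prog_lower (q r : ℕ) (hq : 0 < q) (hr : 0 < r) (J : ℕ) :
    (Real.log ((r : ℝ) + q * J) - Real.log r) / q ≤ ∑ j ∈ range J, (1 : ℝ) / (r + q * j) := by
  have hq' : (0 : ℝ) < q := by exact_mod_cast hq
  have hr' : (0 : ℝ) < r := by exact_mod_cast hr
  induction J with
  | zero => simp
  | succ J ih =>
    rw [Finset.sum_range_succ]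
    have h1 : Real.log ((r : ℝ) + q * ((J + 1 : ℕ) : ℝ)) - Real.log ((r : ℝ) + q * J) ≤
        q / (r + q * J) := by
      have h2 : (0 : ℝ) < r + q * J := by positivity
      have h3 : (0 : ℝ) < (r : ℝ) + q * ((J + 1 : ℕ) : ℝ) := by positivity
      rw [← Real.log_div h3.ne' h2.ne']
      refine (Real.log_le_sub_one_of_pos (by positivity)).trans ?_
      rw [div_sub_one h2.ne']
      apply le_of_eq
      congr 1
      push_cast
      ring
    have h4 : (Real.log ((r : ℝ) + q * ((J + 1 : ℕ) : ℝ)) - Real.log r) / q =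
        (Real.log ((r : ℝ) + q * J) - Real.log r) / q +
          (Real.log ((r : ℝ) + q * ((J + 1 : ℕ) : ℝ)) - Real.log ((r : ℝ) + q * J)) / q := by
      ring
    rw [h4]
    apply add_le_add ih
    rw [div_le_iff₀ hq']
    refine h1.trans (le_of_eq ?_)
    ring

theorem prog_upper (q r : ℕ) (hq : 0 < q) (hr : 0 < r) (J : ℕ) :
    ∑ j ∈ range (J + 1), (1 : ℝ) / (r + q * j) ≤
      1 / r + (Real.log ((r : ℝ) + q * J) - Real.log r) / q := by
  have hq' : (0 : ℝ) < q := by exact_mod_cast hq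
  have hr' : (0 : ℝ) < r := by exact_mod_cast hr
  induction J with
  | zero => simp
  | succ J ih =>
    rw [Finset.sum_range_succ]
    have h2 : (0 : ℝ) < r + q * J := by positivity
    have h3 : (0 : ℝ) < (r : ℝ) + q * ((J + 1 : ℕ) : ℝ) := by positivity
    have h1 : q / ((r : ℝ) + q * ((J + 1 : ℕ) : ℝ)) ≤
        Real.log ((r : ℝ) + q * ((J + 1 : ℕ) : ℝ)) - Real.log ((r : ℝ) + q * J) := by
      rw [← Real.log_div h3.ne' h2.ne']
      refine le_trans (le_of_eq ?_) (Real.one_sub_inv_le_log_of_pos (by positivity))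
      rw [inv_div, eq_sub_iff_add_eq, ← add_div, div_eq_one_iff_eq h3.ne']
      push_cast
      ring
    have h4 : (Real.log ((r : ℝ) + q * ((J + 1 : ℕ) : ℝ)) - Real.log r) / q =
        (Real.log ((r : ℝ) + q * J) - Real.log r) / q +
          (Real.log ((r : ℝ) + q * ((J + 1 : ℕ) : ℝ)) - Real.log ((r : ℝ) + q * J)) / q := by
      ring
    rw [h4, ← add_assoc]
    apply add_le_add ih
    rw [le_div_iff₀ hq']
    refine le_trans (le_of_eq ?_) h1
    ring

theorem exists_rep (A q a : ℕ) (hq : 0 < q) : ∃ r, A < r ∧ r ≤ A + q ∧ r ≡ a [MOD q] := by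
  refine ⟨A + 1 + (a + (q - 1) * (A + 1)) % q, by omega, ?_, ?_⟩
  · have := Nat.mod_lt (a + (q - 1) * (A + 1)) hq
    omega
  · have h1 : A + 1 + (a + (q - 1) * (A + 1)) % q ≡ A + 1 + (a + (q - 1) * (A + 1)) [MOD q] :=
      Nat.ModEq.add_left _ (Nat.mod_modEq _ _)
    have h2 : A + 1 + (a + (q - 1) * (A + 1)) = a + q * (A + 1) := by
      obtain ⟨q', rfl⟩ := Nat.exists_eq_succ_of_ne_zero hq.ne'
      simp only [Nat.succ_eq_add_one, Nat.add_sub_cancel]
      ring
    rw [h2] at h1
    refine h1.trans ?_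
    have h3 : a + q * (A + 1) ≡ a + 0 [MOD q] :=
      Nat.ModEq.add_left _ ((Nat.modEq_zero_iff_dvd).2 (Dvd.intro _ rfl))
    rwa [add_zero] at h3

theorem class_sum (A B q a : ℕ) (hA : 0 < A) (hq : 0 < q) (hAB : A + q ≤ B) :
    |∑ n ∈ (Ioc A B).filter (fun n => n ≡ a [MOD q]), (1 : ℝ) / n -
      (Real.log B - Real.log A) / q| ≤ 1 / A := by
  obtain ⟨r, hr1, hr2, hr3⟩ := exists_rep A q a hq
  have hq' : (0 : ℝ) < q := by exact_mod_cast hq
  have hA' : (0 : ℝ) < A := by exact_mod_cast hA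
  have hr0 : 0 < r := by omega
  have hr' : (0 : ℝ) < r := by exact_mod_cast hr0
  have hrB : r ≤ B := by omega
  have hB' : (0 : ℝ) < B := by exact_mod_cast (hr0.trans_le hrB)
  set J : ℕ := (B - r) / q with hJ
  have hJ1 : r + q * J ≤ B := by
    have := Nat.mul_div_le (B - r) q
    rw [← hJ] at this
    omega
  have hJ2 : B < r + q * (J + 1) := by
    have := Nat.lt_mul_div_succ (B - r) hq
    rw [← hJ] at this
    omega
  have hset : (Ioc A B).filter (fun n => n ≡ a [MOD q]) =
      (range (J + 1)).image (fun j => r + q * j) := by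
    ext n
    rw [mem_filter, mem_Ioc, mem_image]
    constructor
    · rintro ⟨⟨h1, h2⟩, h3⟩
      have h4 : n ≡ r [MOD q] := h3.trans hr3.symm
      have h5 : r ≤ n := by
        by_contra hcon
        rw [not_le] at hcon
        have h6 : q ∣ r - n := (Nat.modEq_iff_dvd' hcon.le).1 h4
        have h7 := Nat.le_of_dvd (by omega) h6
        omega
      have h6 : q ∣ n - r := (Nat.modEq_iff_dvd' h5).1 h4.symm
      obtain ⟨j, hj⟩ := h6
      refine ⟨j, ?_, by omega⟩
      rw [mem_range]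
      by_contra hcon
      rw [not_lt] at hcon
      have h8 : q * (J + 1) ≤ q * j := Nat.mul_le_mul_left _ hcon
      omega
    · rintro ⟨j, hj, rfl⟩
      rw [mem_range] at hj
      have h8 : q * j ≤ q * J := Nat.mul_le_mul_left _ (by omega)
      refine ⟨⟨by omega, by omega⟩, ?_⟩
      have h9 : r + q * j ≡ r + 0 [MOD q] :=
        Nat.ModEq.add_left _ ((Nat.modEq_zero_iff_dvd).2 (Dvd.intro _ rfl))
      rw [add_zero] at h9
      exact h9.trans hr3
  have hsum : ∑ n ∈ (Ioc A B).filter (fun n => n ≡ a [MOD q]), (1 : ℝ) / n =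
      ∑ j ∈ range (J + 1), (1 : ℝ) / (r + q * j) := by
    rw [hset, Finset.sum_image]
    · apply Finset.sum_congr rfl
      intro j _
      push_cast
      rfl
    · intro j _ j' _ hjj
      have h10 : q * j = q * j' := by
        simp only at hjj
        omega
      exact Nat.eq_of_mul_eq_mul_left hq h10
  rw [hsum]
  have hlow := prog_lower q r hq hr0 (J + 1)
  have hupp := prog_upper q r hq hr0 J
  have e1 : Real.log B ≤ Real.log ((r : ℝ) + q * ((J + 1 : ℕ) : ℝ)) := by
    apply Real.log_le_log hB'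
    exact_mod_cast hJ2.le
  have e2 : Real.log r ≤ Real.log A + q / A := by
    calc Real.log r ≤ Real.log ((A : ℝ) + q) := Real.log_le_log hr' (by exact_mod_cast hr2)
      _ = Real.log A + Real.log (1 + q / A) := by
          rw [← Real.log_mul hA'.ne' (by positivity)]
          congr 1
          field_simp
      _ ≤ Real.log A + q / A := by
          have := Real.log_le_sub_one_of_pos (show (0 : ℝ) < 1 + q / A by positivity)
          linarith
  have e3 : Real.log ((r : ℝ) + q * J) ≤ Real.log B := by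
    apply Real.log_le_log (by positivity)
    exact_mod_cast hJ1
  have e4 : Real.log A ≤ Real.log r := Real.log_le_log hA' (by exact_mod_cast hr1.le)
  have e5 : (1 : ℝ) / r ≤ 1 / A := one_div_le_one_div_of_le hA' (by exact_mod_cast hr1.le)
  rw [abs_le]
  constructor
  · have e6 : (Real.log B - Real.log A) / q - 1 / A ≤
        (Real.log ((r : ℝ) + q * ((J + 1 : ℕ) : ℝ)) - Real.log r) / q := by
      have e7 : (Real.log B - Real.log A) / q - 1 / A =
          (Real.log B - (Real.log A + q / A)) / q := by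
        field_simp
        ring
      rw [e7]
      gcongr
    linarith
  · have e8 : (Real.log ((r : ℝ) + q * J) - Real.log r) / q ≤
        (Real.log B - Real.log A) / q := by gcongr
    linarith

theorem log_floor {x : ℝ} (hx : 1 ≤ x) :
    Real.log ⌊x⌋₊ ≤ Real.log x ∧ Real.log x ≤ Real.log ⌊x⌋₊ + 1 / ⌊x⌋₊ := by
  have h1 : 1 ≤ ⌊x⌋₊ := Nat.le_floor (by exact_mod_cast hx)
  have h1' : (0 : ℝ) < ⌊x⌋₊ := by exact_mod_cast h1
  refine ⟨Real.log_le_log h1' (Nat.floor_le (by linarith)), ?_⟩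
  calc Real.log x ≤ Real.log ((⌊x⌋₊ : ℝ) + 1) :=
        Real.log_le_log (by linarith) (Nat.lt_floor_add_one x).le
    _ = Real.log ⌊x⌋₊ + Real.log (1 + 1 / ⌊x⌋₊) := by
        rw [← Real.log_mul h1'.ne' (by positivity)]
        congr 1
        field_simp
    _ ≤ Real.log ⌊x⌋₊ + 1 / ⌊x⌋₊ := by
        have := Real.log_le_sub_one_of_pos (show (0 : ℝ) < 1 + 1 / (⌊x⌋₊ : ℝ) by positivity)
        linarith

/-- The harmonic sum over the numbers in `(√x, x]` in a residue class modulo `q`. -/
theorem class_sum_real {x : ℝ} (hx : 9 ≤ x) (q a : ℕ) (hq : 0 < q)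
    (hqx : (q : ℝ) ≤ x ^ (1 / 2 : ℝ)) :
    |∑ n ∈ (Ioc ⌊x ^ (1 / 2 : ℝ)⌋₊ ⌊x⌋₊).filter (fun n => n ≡ a [MOD q]), (1 : ℝ) / n -
      Real.log x / (2 * q)| ≤ 4 / x ^ (1 / 2 : ℝ) := by
  have hx0 : (0 : ℝ) < x := by linarith
  set s : ℝ := x ^ (1 / 2 : ℝ) with hs
  have hss : s * s = x := by
    rw [hs, ← Real.rpow_add hx0]
    norm_num
  have hs3 : 3 ≤ s := by
    have hs0 : 0 ≤ s := by positivity
    nlinarith
  have hs0 : 0 < s := by linarith
  set A := ⌊s⌋₊ with hA
  set B := ⌊x⌋₊ with hB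
  have hA1 : 1 ≤ A := Nat.le_floor (by push_cast; linarith)
  have hA' : (0 : ℝ) < A := by exact_mod_cast hA1
  have hAs : (A : ℝ) ≤ s := Nat.floor_le hs0.le
  have hAs' : s < A + 1 := Nat.lt_floor_add_one s
  have hBx' : x < B + 1 := Nat.lt_floor_add_one x
  have hAB : A + q ≤ B := by
    have h1 : ((A + q : ℕ) : ℝ) < B + 1 := by
      push_cast
      nlinarith
    have h2 : A + q < B + 1 := by exact_mod_cast h1
    omega
  have hq1 : (1 : ℝ) ≤ q := by exact_mod_cast hq
  have hq' : (0 : ℝ) < q := by linarith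
  have hBA : (A : ℝ) ≤ B := by
    have : A ≤ B := by omega
    exact_mod_cast this
  have h1 := class_sum A B q a hA1 hq hAB
  obtain ⟨h2, h3⟩ := log_floor (show (1 : ℝ) ≤ x by linarith)
  obtain ⟨h4, h5⟩ := log_floor (show (1 : ℝ) ≤ s by linarith)
  have h6 : Real.log s = Real.log x / 2 := by
    rw [hs, Real.log_rpow hx0]
    ring
  have h7 : (1 : ℝ) / B ≤ 1 / A := one_div_le_one_div_of_le hA' hBA
  have h8 : |(Real.log B - Real.log A) / q - Real.log x / (2 * q)| ≤ 1 / A := by
    have h9 : (Real.log B - Real.log A) / q - Real.log x / (2 * q) =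
        (Real.log B - Real.log A - Real.log x / 2) / q := by
      field_simp
    rw [h9, abs_div, abs_of_pos hq', div_le_iff₀ hq']
    have h10 : |Real.log B - Real.log A - Real.log x / 2| ≤ 1 / A := by
      rw [abs_le]
      constructor <;> linarith
    refine h10.trans ?_
    have h11 : (0 : ℝ) ≤ 1 / A := by positivity
    nlinarith
  have h12 : 2 * ((1 : ℝ) / A) ≤ 4 / s := by
    rw [mul_one_div, div_le_div_iff₀ hA' hs0]
    linarith
  calc |∑ n ∈ (Ioc A B).filter (fun n => n ≡ a [MOD q]), (1 : ℝ) / n - Real.log x / (2 * q)|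
      ≤ |∑ n ∈ (Ioc A B).filter (fun n => n ≡ a [MOD q]), (1 : ℝ) / n -
          (Real.log B - Real.log A) / q| +
        |(Real.log B - Real.log A) / q - Real.log x / (2 * q)| := by
        have := abs_add_le (∑ n ∈ (Ioc A B).filter (fun n => n ≡ a [MOD q]), (1 : ℝ) / n -
          (Real.log B - Real.log A) / q) ((Real.log B - Real.log A) / q - Real.log x / (2 * q))
        rwa [sub_add_sub_cancel] at this
    _ ≤ 1 / A + 1 / A := add_le_add h1 h8
    _ ≤ 4 / s := by linarith

end Pool.Agent.Helper74.MT
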