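import Pool.Agent.Helper1.MT.Defs
import Pool.Agent.Helper44.BV.Mass
import Pool.Agent.Helper44.MertensProd

/-!
# MT-B, auxiliary bounds: the trivial estimates for the error terms
-/

set_option autoImplicit false

open Finset
open scoped ArithmeticFunction.vonMangoldt

namespace Pool.Agent.Helper74.MT

open Pool.Agent.Helper18.BV (wt IsWt)
open Pool.Agent.Helper1.MT

/-- The harmonic sum over a residue class beyond the modulus. -/
theorem sum_inv_class_le (N d r : ℕ) (hd : 0 < d) :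
    ∑ n ∈ (Icc 1 N).filter (fun n => n ≡ r [MOD d] ∧ d < n), (1 : ℝ) / n ≤
      (1 + Real.log N) / d := by
  have hd' : (0 : ℝ) < d := by exact_mod_cast hd
  have hinj : Set.InjOn (fun n => n / d)
      ((Icc 1 N).filter (fun n => n ≡ r [MOD d] ∧ d < n) : Finset ℕ) := by
    intro a ha b hb hab
    rw [mem_coe, mem_filter] at ha hb
    have h1 : a % d = b % d := ha.2.1.trans hb.2.1.symm
    simp only at hab
    rw [← Nat.div_add_mod a d, ← Nat.div_add_mod b d, hab, h1]
  have h1 : ∑ n ∈ (Icc 1 N).filter (fun n => n ≡ r [MOD d] ∧ d < n), (1 : ℝ) / n ≤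
      ∑ n ∈ (Icc 1 N).filter (fun n => n ≡ r [MOD d] ∧ d < n),
        (fun m : ℕ => ((m : ℝ))⁻¹ / d) (n / d) := by
    apply Finset.sum_le_sum
    intro n hn
    rw [mem_filter] at hn
    have h2 : 0 < n / d := Nat.div_pos hn.2.2.le hd
    have h3 : (0 : ℝ) < ((n / d : ℕ) : ℝ) := by exact_mod_cast h2
    have h4 : ((n / d : ℕ) : ℝ) * d ≤ n := by exact_mod_cast Nat.div_mul_le_self n d
    have h5 : ((n / d : ℕ) : ℝ)⁻¹ / d = 1 / (((n / d : ℕ) : ℝ) * d) := by
      rw [inv_eq_one_div, div_div]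
    change (1 : ℝ) / n ≤ ((n / d : ℕ) : ℝ)⁻¹ / d
    rw [h5]
    exact one_div_le_one_div_of_le (by positivity) h4
  refine h1.trans ?_
  rw [← Finset.sum_image (f := fun m : ℕ => ((m : ℝ))⁻¹ / d) hinj, ← Finset.sum_div]
  gcongr
  calc ∑ m ∈ ((Icc 1 N).filter (fun n => n ≡ r [MOD d] ∧ d < n)).image (fun n => n / d),
        ((m : ℝ))⁻¹ ≤ ∑ m ∈ Icc 1 N, ((m : ℝ))⁻¹ := by
        apply Finset.sum_le_sum_of_subset_of_nonneg
        · intro m hm
          rw [mem_image] at hm
          obtain ⟨n, hn, rfl⟩ := hm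
          rw [mem_filter, mem_Icc] at hn
          rw [mem_Icc]
          exact ⟨Nat.div_pos hn.2.2.le hd, (Nat.div_le_self _ _).trans hn.1.2⟩
        · intro m _ _
          positivity
    _ = ((harmonic N : ℚ) : ℝ) := by
        rw [harmonic_eq_sum_Icc]
        push_cast
        rfl
    _ ≤ 1 + Real.log N := harmonic_le_one_add_log N

/-- The weight vanishes for `n ≤ √x`. -/
theorem wt_zero {g : ℝ → ℝ} (hg : IsWt g) {x : ℝ} (hx : 1 < x) {n : ℕ} (hn : 0 < n)
    (h : (n : ℝ) ^ 2 ≤ x) : wt g x n = 0 := by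
  unfold wt
  have hlx : 0 < Real.log x := Real.log_pos hx
  have h1 : Real.log n / Real.log x ≤ 1 / 2 := by
    rw [div_le_iff₀ hlx]
    have h2 : Real.log ((n : ℝ) ^ 2) ≤ Real.log x := Real.log_le_log (by positivity) h
    rw [Real.log_pow] at h2
    push_cast at h2
    linarith
  have h3 : g (Real.log n / Real.log x) = 0 := by
    by_contra hcon
    have := hg.supp (subset_tsupport g hcon)
    exact absurd this.1 (not_lt.2 h1)
  rw [h3, zero_div]

theorem wt_nonneg {g : ℝ → ℝ} (hg : IsWt g) (x : ℝ) (n : ℕ) : 0 ≤ wt g x n := by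
  unfold wt
  exact div_nonneg (hg.nonneg _) (Nat.cast_nonneg _)

/-- The trivial bound in one residue class. -/
theorem sum_class_le {g : ℝ → ℝ} (hg : IsWt g) {G : ℝ} (hG : ∀ v, |g v| ≤ G) {x : ℝ}
    (hx : 3 ≤ x) (d r : ℕ) (hd : 0 < d) (hdx : (d : ℝ) ^ 2 ≤ x) :
    ∑ n ∈ (Icc 1 ⌊x⌋₊).filter (fun n => n ≡ r [MOD d]), Λ n * wt g x n ≤
      G * Real.log x * (1 + Real.log x) / d := by
  have hG0 : 0 ≤ G := (abs_nonneg (g 0)).trans (hG 0)
  have hlx : 0 < Real.log x := Real.log_pos (by linarith)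
  have hd' : (0 : ℝ) < d := by exact_mod_cast hd
  have h1 : ∑ n ∈ (Icc 1 ⌊x⌋₊).filter (fun n => n ≡ r [MOD d]), Λ n * wt g x n ≤
      ∑ n ∈ (Icc 1 ⌊x⌋₊).filter (fun n => n ≡ r [MOD d] ∧ d < n),
        (G * Real.log x) * ((1 : ℝ) / n) := by
    have h2 : (Icc 1 ⌊x⌋₊).filter (fun n => n ≡ r [MOD d] ∧ d < n) =
        ((Icc 1 ⌊x⌋₊).filter (fun n => n ≡ r [MOD d])).filter (fun n => d < n) := by
      rw [filter_filter]
    rw [h2, Finset.sum_filter (fun n => d < n)]
    apply Finset.sum_le_sum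
    intro n hn
    rw [mem_filter, mem_Icc] at hn
    have hn0 : (0 : ℝ) < n := by exact_mod_cast hn.1.1
    split_ifs with h
    · have h3 : Λ n ≤ Real.log x := by
        refine ArithmeticFunction.vonMangoldt_le_log.trans ?_
        apply Real.log_le_log hn0
        exact (Nat.le_floor_iff (by linarith)).1 hn.1.2
      have h4 : wt g x n ≤ G * (1 / n) := by
        unfold wt
        rw [div_eq_mul_one_div]
        exact mul_le_mul_of_nonneg_right ((le_abs_self _).trans (hG _)) (by positivity)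
      calc Λ n * wt g x n ≤ Real.log x * (G * (1 / n)) :=
            mul_le_mul h3 h4 (wt_nonneg hg x n) hlx.le
        _ = _ := by ring
    · rw [wt_zero hg (by linarith) hn.1.1, mul_zero]
      have h5 : (n : ℝ) ≤ d := by exact_mod_cast not_lt.1 h
      calc (n : ℝ) ^ 2 ≤ (d : ℝ) ^ 2 := by gcongr
        _ ≤ x := hdx
  refine h1.trans ?_
  rw [← Finset.mul_sum, mul_div_assoc]
  apply mul_le_mul_of_nonneg_left _ (by positivity)
  refine (sum_inv_class_le _ d r hd).trans ?_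
  have hfl : 1 ≤ ⌊x⌋₊ := Nat.le_floor (by push_cast; linarith)
  have h6 : Real.log ⌊x⌋₊ ≤ Real.log x :=
    Real.log_le_log (by exact_mod_cast hfl) (Nat.floor_le (by linarith))
  gcongr

/-- The trivial bound for the total mass. -/
theorem sum_total_le {g : ℝ → ℝ} (_hg : IsWt g) {G : ℝ} (hG : ∀ v, |g v| ≤ G) {x : ℝ}
    (hx : 3 ≤ x) :
    ∑ n ∈ Icc 1 ⌊x⌋₊, Λ n * wt g x n ≤ G * (Real.log x + 6) := by
  have hG0 : 0 ≤ G := (abs_nonneg (g 0)).trans (hG 0)
  have h1 : ∑ n ∈ Icc 1 ⌊x⌋₊, Λ n * wt g x n ≤ ∑ n ∈ Ioc 0 ⌊x⌋₊, G * (Λ n / n) := by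
    have h2 : Icc 1 ⌊x⌋₊ = Ioc 0 ⌊x⌋₊ := by
      ext n; rw [mem_Icc, mem_Ioc]; omega
    rw [h2]
    apply Finset.sum_le_sum
    intro n hn
    unfold wt
    have h3 : Λ n * (g (Real.log n / Real.log x) / n) = g (Real.log n / Real.log x) * (Λ n / n) := by
      ring
    rw [h3]
    exact mul_le_mul_of_nonneg_right ((le_abs_self _).trans (hG _))
      (div_nonneg ArithmeticFunction.vonMangoldt_nonneg (Nat.cast_nonneg _))
  refine h1.trans ?_
  rw [← Finset.mul_sum]
  exact mul_le_mul_of_nonneg_left (Pool.Agent.Helper44.BV.sum_Lambda_Ioc_le (by linarith)) hG0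

/-- Euler's function of the moduli. -/
theorem le_totient (R W : ℕ) (hW : 0 < W) (U : Finset ℕ) (hU : U ⊆ PS R W) :
    ∏ p ∈ U, p ≤ (W * ∏ p ∈ U, p).totient * 2 ^ U.card ∧
      Nat.Coprime (W * ∏ p ∈ U, p) (W * ∏ p ∈ U, p + 1) := by
  refine ⟨?_, by simp⟩
  induction U using Finset.induction_on with
  | empty =>
    simp only [prod_empty, mul_one, card_empty, pow_zero]
    exact Nat.totient_pos.2 hW
  | insert p U hp ih =>
    have ih' := ih ((Finset.subset_insert p U).trans hU)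
    have hpm : p ∈ PS R W := hU (Finset.mem_insert_self p U)
    unfold PS at hpm
    rw [mem_filter] at hpm
    have hpp : p.Prime := hpm.2.1
    rw [Finset.prod_insert hp, Finset.card_insert_of_notMem hp]
    have h1 : W * (p * ∏ q ∈ U, q) = p * (W * ∏ q ∈ U, q) := by ring
    have hcop : Nat.Coprime p (W * ∏ q ∈ U, q) := by
      apply Nat.Coprime.mul_right
      · exact (Nat.Prime.coprime_iff_not_dvd hpp).2 hpm.2.2
      · apply Nat.Coprime.prod_right
        intro q hq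
        have hqm : q ∈ PS R W := hU (Finset.mem_insert_of_mem hq)
        unfold PS at hqm
        rw [mem_filter] at hqm
        refine (Nat.coprime_primes hpp hqm.2.1).2 ?_
        rintro rfl
        exact hp hq
    rw [h1, Nat.totient_mul hcop, Nat.totient_prime hpp, pow_succ]
    have h2 : p ≤ (p - 1) * 2 := by have := hpp.two_le; omega
    calc p * ∏ q ∈ U, q ≤ ((p - 1) * 2) * ((W * ∏ q ∈ U, q).totient * 2 ^ U.card) :=
          Nat.mul_le_mul h2 ih'
      _ = _ := by ring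

/-- The sum of `a ^ |U| / ∏ U` over sets of primes. -/
theorem sum_powerset_le {C : ℝ} (hM : ∀ w : ℝ, 2 ≤ w →
    |∑ q ∈ Pool.Agent.Helper44.primesUpTo w, (1 : ℝ) / q - Real.log (Real.log w)| ≤ C)
    (R W : ℕ) (x : ℝ) (hx : 2 ≤ x) (hR : (R : ℝ) ≤ x) (a : ℝ) (ha : 0 ≤ a) :
    ∑ U ∈ (PS R W).powerset, a ^ U.card / ((∏ p ∈ U, p : ℕ) : ℝ) ≤
      Real.exp (a * C) * Real.log x ^ a := by
  have hlx : 0 < Real.log x := Real.log_pos (by linarith)
  have h1 : ∑ U ∈ (PS R W).powerset, a ^ U.card / ((∏ p ∈ U, p : ℕ) : ℝ) =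
      ∏ p ∈ PS R W, (1 + a / p) := by
    rw [Finset.prod_one_add]
    apply Finset.sum_congr rfl
    intro U _
    rw [Finset.prod_div_distrib, Finset.prod_const]
    push_cast
    rfl
  rw [h1]
  have h2 : ∏ p ∈ PS R W, (1 + a / p) ≤ ∏ p ∈ PS R W, Real.exp (a * (1 / p)) := by
    apply Finset.prod_le_prod
    · intro p _; positivity
    · intro p _
      have := Real.add_one_le_exp (a * (1 / (p : ℝ)))
      have h3 : a * (1 / (p : ℝ)) = a / p := by ring
      rw [h3] at this ⊢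
      linarith
  refine h2.trans ?_
  rw [← Real.exp_sum, ← Finset.mul_sum]
  have h4 : ∑ p ∈ PS R W, (1 : ℝ) / p ≤ Real.log (Real.log x) + C := by
    have h5 := (abs_le.1 (hM x hx)).2
    have h6 : ∑ p ∈ PS R W, (1 : ℝ) / p ≤
        ∑ q ∈ Pool.Agent.Helper44.primesUpTo x, (1 : ℝ) / q := by
      apply Finset.sum_le_sum_of_subset_of_nonneg
      · intro p hp
        unfold PS at hp
        rw [mem_filter, mem_range] at hp
        rw [Pool.Agent.Helper44.mem_primesUpTo (by linarith)]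
        refine ⟨hp.2.1, le_trans ?_ hR⟩
        exact_mod_cast Nat.lt_succ_iff.1 hp.1
      · intro p _ _; positivity
    linarith
  have h7 : Real.exp (a * C) * Real.log x ^ a = Real.exp (a * (Real.log (Real.log x) + C)) := by
    rw [Real.rpow_def_of_pos hlx, ← Real.exp_add]
    congr 1
    ring
  rw [h7]
  exact Real.exp_le_exp.2 (mul_le_mul_of_nonneg_left h4 ha)

end Pool.Agent.Helper74.MT
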